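import Pool.Agent.L7h7.GJ.LOC
import Pool.Agent.L7h7.GJ.Geo
import Pool.Agent.L7h7.GJ.Cnt
import Pool.Agent.L7h7.GJ.Card
import Pool.Agent.L7h12.GJ.Fin
import Pool.Agent.L7h24.GJ.Sind
import Pool.Agent.L7h24.GJ.Asm
import Pool.Agent.L7h64.GJ.Gstep
import Pool.Agent.L7h95.GJ.Wstep

set_option autoImplicit false

namespace Pool.Agent.Results.MP_1f68be_co.CircumscribedExponent

/-- the Euclidean space `ℝ^d` -/
abbrev E (d : ℕ) := EuclideanSpace ℝ (Fin d)

/-- `A` is the set of the points of `V` at which some linear functional attains its maximum over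
`V`: the vertex set of a face (the polytope itself included) -/
def IsFace {d : ℕ} (V : Finset (E d)) (A : Set (E d)) : Prop :=
  ∃ l : E d →L[ℝ] ℝ, ∀ x, x ∈ A ↔ (x ∈ V ∧ ∀ w ∈ V, l w ≤ l x)

/-- `V` is the vertex set of a simplicial `d`-polytope in `ℝ^d` -/
structure Simplicial {d : ℕ} (V : Finset (E d)) : Prop where
  span : affineSpan ℝ (V : Set (E d)) = ⊤
  vert : ∀ v ∈ V, v ∉ convexHull ℝ ((V : Set (E d)) \ {v})
  simp : ∀ A : Set (E d), IsFace V A → A ≠ (V : Set (E d)) →
    AffineIndependent ℝ (Subtype.val : A → E d)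

/-- `W` is the vertex set of a `d`-polytope in `ℝ^d` and `f : V → W` is a combinatorial isomorphism:
a bijection such that `A ⊆ V` is the vertex set of a face if and only if `f '' A` is -/
structure Realizes {d : ℕ} (V W : Finset (E d)) (f : E d → E d) : Prop where
  span : affineSpan ℝ (W : Set (E d)) = ⊤
  vert : ∀ v ∈ W, v ∉ convexHull ℝ ((W : Set (E d)) \ {v})
  bij : Set.BijOn f (V : Set (E d)) (W : Set (E d))
  face : ∀ A : Set (E d), A ⊆ (V : Set (E d)) → (IsFace V A ↔ IsFace W (f '' A))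

/-- **MP_1f68be_co, Q1, with the sphere containing the polytope.**
For every `d ≥ 3`, every `ε > 0` and every `N` there is a simplicial `d`-polytope with vertex set `V`,
`N ≤ |V|` (an iterated Kleetope of the `d`-simplex), such that for every polytope with vertex set `W`
combinatorially equivalent to it and every sphere whose closed ball contains `W`, at most
`|V| ^ (log 2 / log d + ε)` points of `W` lie on the sphere; and
`log 2 / log d < log (d - 1) / log d` for every `d ≥ 4`.  So the equality asked for in Q1 fails for every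
`d ≥ 4` when `s₀(P)` is defined with spheres whose closed ball contains `P'`. -/
theorem result :
    (∀ d : ℕ, 3 ≤ d → ∀ ε : ℝ, 0 < ε → ∀ N : ℕ, ∃ V : Finset (E d), Simplicial V ∧ N ≤ V.card ∧
      ∀ (W : Finset (E d)) (f : E d → E d), Realizes V W f →
        ∀ (c : E d) (r : ℝ), 0 < r → (∀ w ∈ W, w ∈ Metric.closedBall c r) →
          ∀ T : Finset (E d), T ⊆ W → (∀ w ∈ T, w ∈ Metric.sphere c r) →
            (T.card : ℝ) ≤ (V.card : ℝ) ^ (Real.log 2 / Real.log (d : ℝ) + ε)) ∧
    (∀ d : ℕ, 4 ≤ d →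
      Real.log 2 / Real.log (d : ℝ) < Real.log ((d : ℝ) - 1) / Real.log (d : ℝ)) := by
  have main : Pool.Agent.L7h7.GJ.Main :=
    Pool.Agent.L7h12.GJ.s_FIN Pool.Agent.L7h7.GJ.s_CARD
      (Pool.Agent.L7h24.GJ.s_SIND (Pool.Agent.L7h95.GJ.s_WSTEP Pool.Agent.L7h64.GJ.s_GSTEP))
      (Pool.Agent.L7h24.GJ.s_ASM Pool.Agent.L7h7.GJ.s_LOC Pool.Agent.L7h7.GJ.s_GEO
        Pool.Agent.L7h7.GJ.s_CNT)
  refine ⟨?_, ?_⟩
  · intro d hd ε hε N
    obtain ⟨V, h1, h2, h3, h4, h5⟩ := main d hd ε hε N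
    refine ⟨V, ⟨h1, h2, h3⟩, h4, ?_⟩
    intro W f hR c r hr hW T hT hTs
    exact h5 W f hR.span hR.vert hR.bij hR.face c r hr (fun w hw => hW w hw) T hT hTs
  · intro d hd
    have h4 : (4 : ℝ) ≤ (d : ℝ) := by exact_mod_cast hd
    apply div_lt_div_of_pos_right
    · exact Real.log_lt_log (by norm_num) (by linarith)
    · exact Real.log_pos (by linarith)

end Pool.Agent.Results.MP_1f68be_co.CircumscribedExponent
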