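import Pool.Agent.L7h31.IE.All

/-!
# MP_1f68be_co: inscribability exponents in even dimensions `d ≥ 4`

Let `d = 2 p ≥ 4`.  There are simplicial `d`-polytopes `P` with arbitrarily many vertices `n` such
that in every realization `P'` of `P` and for every sphere `S` at most `C n^(1 - 1/p)` vertices of
`P'` are on `S` and have all their neighbours in the closed ball bounded by `S`. In particular, every
realization of `P` inside a ball has at most `C n^(1 - 1/p)` vertices on the boundary of the ball,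
and `1 - 1/p < log (d - 1) / log d`, the exponent conjectured by Grünbaum and Jucovič.
-/

set_option autoImplicit false

namespace Pool.Agent.Results.MP_1f68be_co.EvenDimensions

/-- the Euclidean space `ℝ^d` -/
abbrev E (d : ℕ) := EuclideanSpace ℝ (Fin d)

/-- `A` is the set of the points of `V` at which some linear functional attains its maximum over
`V`: the vertex set of a face (the polytope itself included) -/
def IsFace {d : ℕ} (V : Finset (E d)) (A : Set (E d)) : Prop :=
  ∃ l : E d →L[ℝ] ℝ, ∀ x, x ∈ A ↔ (x ∈ V ∧ ∀ w ∈ V, l w ≤ l x)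

/-- `V` is the vertex set of a simplicial `d`-polytope in `ℝ^d` -/
structure Simplicial {d : ℕ} (V : Finset (E d)) : Prop where
  span : affineSpan ℝ (V : Set (E d)) = ⊤
  vert : ∀ v ∈ V, v ∉ convexHull ℝ ((V : Set (E d)) \ {v})
  simp : ∀ A : Set (E d), IsFace V A → A ≠ (V : Set (E d)) →
    AffineIndependent ℝ (Subtype.val : A → E d)

/-- `W` is the vertex set of a `d`-polytope in `ℝ^d` and `f : V → W` is a combinatorial isomorphism:
a bijection such that `A ⊆ V` is the vertex set of a face if and only if `f '' A` is -/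
structure Realizes {d : ℕ} (V W : Finset (E d)) (f : E d → E d) : Prop where
  span : affineSpan ℝ (W : Set (E d)) = ⊤
  vert : ∀ v ∈ W, v ∉ convexHull ℝ ((W : Set (E d)) \ {v})
  bij : Set.BijOn f (V : Set (E d)) (W : Set (E d))
  face : ∀ A : Set (E d), A ⊆ (V : Set (E d)) → (IsFace V A ↔ IsFace W (f '' A))

/-- Let `p ≥ 2`, `d = 2 p`.
1. `1 - 1/p < log (d - 1) / log d`.
2. There is `C > 0` such that for all `N` there is a simplicial `d`-polytope with `n ≥ N` vertices
   for which every realization (vertex set `W`) and every sphere (centre `c`, radius `r`) satisfy: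
   if all points of a set `T` of vertices are on the sphere and all their neighbours in the closed
   ball, then `|T| ≤ C n^(1 - 1/p)`.
3. There is `ε > 0` such that for all `N` there is a simplicial `d`-polytope with `n ≥ N` vertices
   for which every realization in a closed ball has fewer than `n^(log (d-1) / log d - ε)` vertices
   on the boundary sphere of the ball. -/
theorem result (p : ℕ) (hp : 2 ≤ p) :
    1 - 1 / (p : ℝ) < Real.log (((2 * p : ℕ) : ℝ) - 1) / Real.log ((2 * p : ℕ) : ℝ) ∧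
    (∃ C : ℝ, 0 < C ∧ ∀ N : ℕ, ∃ V : Finset (E (2 * p)), Simplicial V ∧ N ≤ V.card ∧
      ∀ (W : Finset (E (2 * p))) (f : E (2 * p) → E (2 * p)), Realizes V W f →
        ∀ (c : E (2 * p)) (r : ℝ), 0 < r → ∀ T : Finset (E (2 * p)), T ⊆ W →
          (∀ w ∈ T, w ∈ Metric.sphere c r ∧
            ∀ u ∈ W, IsFace W {u, w} → u ∈ Metric.closedBall c r) →
          (T.card : ℝ) ≤ C * (V.card : ℝ) ^ (1 - 1 / (p : ℝ))) ∧
    (∃ ε : ℝ, 0 < ε ∧ ∀ N : ℕ, ∃ V : Finset (E (2 * p)), Simplicial V ∧ N ≤ V.card ∧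
      ∀ (W : Finset (E (2 * p))) (f : E (2 * p) → E (2 * p)), Realizes V W f →
        ∀ (c : E (2 * p)) (r : ℝ), 0 < r → (∀ w ∈ W, w ∈ Metric.closedBall c r) →
          ∀ T : Finset (E (2 * p)), T ⊆ W → (∀ w ∈ T, w ∈ Metric.sphere c r) →
            (T.card : ℝ) < (V.card : ℝ) ^
              (Real.log (((2 * p : ℕ) : ℝ) - 1) / Real.log ((2 * p : ℕ) : ℝ) - ε)) := by
  have key1 : ∀ V : Finset (E (2 * p)), Pool.Agent.L7h31.IE.Simplicial V → Simplicial V :=
    fun V h => ⟨h.span, h.vert, h.simp⟩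
  have key2 : ∀ (V W : Finset (E (2 * p))) (f : E (2 * p) → E (2 * p)), Realizes V W f →
      Pool.Agent.L7h31.IE.Realizes V W f := fun V W f h => ⟨h.span, h.vert, h.bij, h.face⟩
  refine ⟨Pool.Agent.L7h31.IE.s_LOG p hp, ?_, ?_⟩
  · obtain ⟨C, hC, h⟩ := Pool.Agent.L7h31.IE.fin p hp
    refine ⟨C, hC, fun N => ?_⟩
    obtain ⟨V, h1, h2, h3⟩ := h N
    refine ⟨V, key1 V h1, h2, fun W f hR c r hr T hTW hT => ?_⟩
    exact h3 W f (key2 V W f hR) c r hr T hTW
      (fun w hw => ⟨Metric.mem_sphere.1 (hT w hw).1,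
        fun u hu hf => Metric.mem_closedBall.1 ((hT w hw).2 u hu hf)⟩)
  · obtain ⟨ε, hε, h⟩ := Pool.Agent.L7h31.IE.expo Pool.Agent.L7h31.IE.fin p hp
    refine ⟨ε, hε, fun N => ?_⟩
    obtain ⟨V, h1, h2, h3⟩ := h N
    refine ⟨V, key1 V h1, h2, fun W f hR c r hr hW T hTW hT => ?_⟩
    exact h3 W f (key2 V W f hR) c r hr (fun w hw => Metric.mem_closedBall.1 (hW w hw)) T hTW hT

end Pool.Agent.Results.MP_1f68be_co.EvenDimensions
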